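import Pool.Agent.P8H86.GM.Allv

/-!
Project GM (helper49, mixed Goldbach graphs), package ALLD: every vertex has many neighbours such that
the difference is prime and the sum is rough.
-/

set_option autoImplicit false

namespace Pool.Agent.P8H86.GM

open Finset Filter Topology
open Pool.Agent.H373R2.T7 (pz Vz rhoA PerA lam_fund)
open Pool.Agent.P8H49.GM
open Pool.Agent.R521.GG (LL)
open Pool.Agent.P8H86.EX (MM MM_eq op_ge)

/-- the condition: `r` is in the class of `c` modulo `p` -/
def QQ (c : ℕ → ℕ) (p r : ℕ) : Prop := r % p = c p % p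

lemma QQ_per (c : ℕ → ℕ) : PerA (QQ c) 1 := by
  classical
  constructor
  · intro p n
    unfold QQ
    rw [Nat.mod_mod]
  · intro p hp
    unfold rhoA
    rw [card_le_one]
    intro r hr s hs
    rw [mem_filter, mem_range] at hr hs
    have h1 := hr.2.2
    have h2 := hs.2.2
    unfold QQ at h1 h2
    rw [Nat.mod_eq_of_lt hr.1] at h1
    rw [Nat.mod_eq_of_lt hs.1] at h2
    rw [h1, h2]

lemma QQ_two (c : ℕ → ℕ) (h : 2 ∣ c 2) : rhoA (QQ c) 2 = 0 := by
  classical
  unfold rhoA
  rw [card_eq_zero, filter_eq_empty_iff]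
  intro r hr h'
  have h1 := h'.2
  unfold QQ at h1
  have h2 := h'.1
  omega

open Classical in
/-- the primes in an interval which avoid one class modulo each small prime -/
noncomputable def gy (y X : ℕ) (c : ℕ → ℕ) : Finset ℕ :=
  (Icc 1 X).filter (fun x => x.Prime ∧ x ≠ 2 ∧ ∀ p ∈ pz y, ¬ QQ c p x)

/-- the analytic inequalities -/
lemma asym2 (C : ℝ) (hC : 0 < C) : ∀ᶠ n : ℕ in atTop,
    (n : ℝ) / Real.log n ^ 3 ≤ n / (12 * C * Real.log n) ∧
    2 * √(n : ℝ) * Real.log n + 4 * Real.log n ≤ n / (24 * C * Real.log n) ∧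
    1 ≤ Real.log n := by
  have hlog : Tendsto (fun n : ℕ => Real.log n) atTop atTop :=
    Real.tendsto_log_atTop.comp tendsto_natCast_atTop_atTop
  have e1 := hlog.eventually_ge_atTop (12 * C + 1)
  have e2 : ∀ᶠ n : ℕ in atTop, ‖Real.log n ^ 4‖ ≤ (1 / (144 * C)) ^ 2 * ‖(n : ℝ)‖ :=
    ((Real.isLittleO_pow_log_id_atTop (n := 4)).def (c := (1 / (144 * C)) ^ 2)
      (by positivity)).natCast_atTop
  filter_upwards [e1, e2, eventually_ge_atTop 2] with n h1 h2 h3
  have hn2 : (2 : ℝ) ≤ n := by exact_mod_cast h3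
  have hn0 : (0 : ℝ) < n := by linarith
  obtain ⟨L, hL⟩ : ∃ L, L = Real.log n := ⟨_, rfl⟩
  rw [← hL] at h1 h2 ⊢
  have hL1 : 1 ≤ L := by nlinarith
  refine ⟨?_, ?_, hL1⟩
  · rw [div_le_div_iff₀ (by positivity) (by positivity)]
    have h6 : 12 * C ≤ L ^ 2 := by nlinarith
    have h7 : 0 ≤ n * L := by positivity
    have h8 := mul_le_mul_of_nonneg_left h6 h7
    calc (n : ℝ) * (12 * C * L) = n * L * (12 * C) := by ring
      _ ≤ n * L * L ^ 2 := h8
      _ = n * L ^ 3 := by ring
  · have hs1 : 1 ≤ √(n : ℝ) := by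
      rw [Real.one_le_sqrt]
      linarith
    have h6 : L ^ 2 ≤ 1 / (144 * C) * √n := by
      rw [Real.norm_of_nonneg (by positivity), Real.norm_of_nonneg (by positivity)] at h2
      have h7 : (L ^ 2) ^ 2 ≤ (1 / (144 * C) * √n) ^ 2 := by
        rw [mul_pow, Real.sq_sqrt hn0.le]
        calc (L ^ 2) ^ 2 = L ^ 4 := by ring
          _ ≤ _ := h2
      exact (pow_le_pow_iff_left₀ (by positivity) (by positivity) two_ne_zero).1 h7
    have h8 : 2 * √(n : ℝ) * L + 4 * L ≤ 6 * √n * L := by nlinarith
    refine h8.trans ?_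
    rw [le_div_iff₀ (by positivity)]
    have hsq : √(n : ℝ) * √n = n := Real.mul_self_sqrt hn0.le
    calc 6 * √(n : ℝ) * L * (24 * C * L) = 144 * C * √n * L ^ 2 := by ring
      _ ≤ 144 * C * √n * (1 / (144 * C) * √n) := mul_le_mul_of_nonneg_left h6 (by positivity)
      _ = √(n : ℝ) * √n := by field_simp
      _ = n := hsq

open Classical in
/-- many primes up to `X` avoid one class modulo each small prime -/
theorem gy_low : ∃ K : ℕ, 1 ≤ K ∧ ∃ δ : ℝ, 0 < δ ∧ ∃ n0 : ℕ, ∀ n : ℕ, n0 ≤ n → ∃ y : ℕ,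
    n < (y + 1) ^ K ∧ ∀ X : ℕ, X ≤ n → n ≤ 3 * X → ∀ c : ℕ → ℕ, 2 ∣ c 2 →
      δ * LL n ≤ ((gy y X c).card : ℝ) := by
  obtain ⟨K, hK, hfund⟩ := lam_fund 1 le_rfl (1 / 12) (by norm_num)
  obtain ⟨x0, hx0⟩ := hfund 3
  obtain ⟨C, hC, y1, hy1⟩ := MM_upper
  obtain ⟨n1, hn1⟩ := eventually_atTop.1 (asym2 C hC)
  obtain ⟨y2, hy2⟩ : ∃ y2, y2 = max x0 (max y1 2) := ⟨_, rfl⟩
  refine ⟨K, hK, 1 / (12 * C), by positivity, max n1 (y2 ^ K), fun n hn => ?_⟩
  have hna := le_trans (le_max_left _ _) hn
  have hnb := le_trans (le_max_right _ _) hn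
  obtain ⟨A1, A2, A4⟩ := hn1 n hna
  obtain ⟨y, hy⟩ : ∃ y, y = Nat.findGreatest (fun y => y ^ K ≤ n) n := ⟨_, rfl⟩
  have hy2n : y2 ≤ n := (Nat.le_self_pow (by omega) y2).trans hnb
  have hyy : y2 ≤ y := by
    rw [hy]
    exact Nat.le_findGreatest hy2n hnb
  have hyK : y ^ K ≤ n := by
    rw [hy]
    exact Nat.findGreatest_spec (P := fun y => y ^ K ≤ n) hy2n hnb
  have hyK' : n < (y + 1) ^ K := by
    by_contra hcon
    push Not at hcon
    have h1 : y + 1 ≤ n := (Nat.le_self_pow (by omega) (y + 1)).trans hcon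
    have h2 := Nat.le_findGreatest (P := fun y => y ^ K ≤ n) h1 hcon
    rw [← hy] at h2
    omega
  refine ⟨y, hyK', fun X hX1 hX2 c hc => ?_⟩
  have hyx0 : x0 ≤ y := by rw [hy2] at hyy; exact le_trans (le_max_left _ _) hyy
  have hyy1 : y1 ≤ y := by
    rw [hy2] at hyy
    exact le_trans (le_trans (le_max_left _ _) (le_max_right _ _)) hyy
  have hyt : 2 ≤ y := by
    rw [hy2] at hyy
    exact le_trans (le_trans (le_max_right _ _) (le_max_right _ _)) hyy
  have hyn : y ≤ n := (Nat.le_self_pow (by omega) y).trans hyK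
  obtain ⟨M, hM⟩ : ∃ M : ℝ, M = ∏ p ∈ pz y, (1 - (rhoA (QQ c) p : ℝ) / (p - 1 : ℝ)) := ⟨_, rfl⟩
  have hML : 1 / (C * Real.log n) ≤ M := by
    have h1 := prod_low hyt (rhoA (QQ c)) (QQ_two c hc) (QQ_per c).few
    rw [← hM] at h1
    refine le_trans ?_ h1
    have h2 := hy1 y hyy1
    have h3 : Real.log y ≤ Real.log n :=
      Real.log_le_log (by exact_mod_cast (by omega : 0 < y)) (by exact_mod_cast hyn)
    rw [one_div]
    refine inv_anti₀ MM_pos (h2.trans (mul_le_mul_of_nonneg_left h3 hC.le))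
  have hn0 : (0 : ℝ) < n := by
    have : 1 ≤ n := by omega
    exact_mod_cast this
  have hM0 : 0 < M := lt_of_lt_of_le (by positivity) hML
  have hl0 : 0 ≤ Real.log n := by linarith
  have F1 := hx0 n y hyx0 hyK (QQ c) (QQ_per c) X hX1
  rw [← hM] at F1
  set S := ∑ x ∈ (Icc 1 X).filter (fun x : ℕ => ∀ p ∈ pz y, ¬ QQ c p x),
    ArithmeticFunction.vonMangoldt x with hS
  have hlow : n / (6 * C * Real.log n) ≤ S := by
    rw [abs_le] at F1
    have hX3 : (n : ℝ) / 3 ≤ X := by
      have : (n : ℝ) ≤ 3 * X := by exact_mod_cast hX2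
      linarith
    have h3 : (n : ℝ) / (C * Real.log n) ≤ n * M := by
      calc (n : ℝ) / (C * Real.log n) = n * (1 / (C * Real.log n)) := by ring
        _ ≤ n * M := mul_le_mul_of_nonneg_left hML hn0.le
    have h4 : (n / 3 : ℝ) * M ≤ X * M := mul_le_mul_of_nonneg_right hX3 hM0.le
    have h5 : (n : ℝ) / (6 * C * Real.log n) = (1 / 6) * (n / (C * Real.log n)) := by
      have : C * Real.log n ≠ 0 := by positivity
      field_simp
    have h6 : (n : ℝ) / (12 * C * Real.log n) = (1 / 12) * (n / (C * Real.log n)) := by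
      have : C * Real.log n ≠ 0 := by positivity
      field_simp
    rw [h5]
    rw [h6] at A1
    have h7 := F1.1
    nlinarith
  have hup : S ≤ (gy y X c).card * Real.log n + (2 * √(n : ℝ) * Real.log n + 4 * Real.log n) := by
    have hsplit : ∀ x ∈ (Icc 1 X).filter (fun x : ℕ => ∀ p ∈ pz y, ¬ QQ c p x),
        ArithmeticFunction.vonMangoldt x ≤ (if x ∈ gy y X c then Real.log n else 0) +
          ((if x ∈ ({2} : Finset ℕ) then Real.log n else 0) +
          (if ¬ x.Prime then ArithmeticFunction.vonMangoldt x else 0)) := by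
      intro x hx
      rw [mem_filter, mem_Icc] at hx
      by_cases hp : x.Prime
      · rw [if_neg (not_not.2 hp), add_zero]
        have h1 : ArithmeticFunction.vonMangoldt x ≤ Real.log n := by
          rw [ArithmeticFunction.vonMangoldt_apply_prime hp]
          refine Real.log_le_log (by exact_mod_cast hp.pos) ?_
          have : x ≤ n := by omega
          exact_mod_cast this
        by_cases hg : x ∈ gy y X c
        · rw [if_pos hg]
          split_ifs <;> linarith
        · have h2 : x ∈ ({2} : Finset ℕ) := by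
            by_contra hcon
            apply hg
            rw [mem_singleton] at hcon
            unfold gy
            rw [mem_filter, mem_Icc]
            exact ⟨hx.1, hp, hcon, hx.2⟩
          rw [if_neg hg, if_pos h2, zero_add]
          exact h1
      · rw [if_pos hp]
        have h1 : 0 ≤ (if x ∈ gy y X c then Real.log (n : ℝ) else 0) := by
          split_ifs <;> linarith
        have h2 : 0 ≤ (if x ∈ ({2} : Finset ℕ) then Real.log (n : ℝ) else 0) := by
          split_ifs <;> linarith
        linarith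
    refine (sum_le_sum hsplit).trans ?_
    rw [sum_add_distrib, sum_add_distrib]
    refine add_le_add ?_ ?_
    · rw [← sum_filter, sum_const, nsmul_eq_mul]
      refine mul_le_mul_of_nonneg_right ?_ hl0
      exact_mod_cast card_le_card (fun x hx => (mem_filter.1 hx).2)
    · have h1 : ∑ x ∈ (Icc 1 X).filter (fun x : ℕ => ∀ p ∈ pz y, ¬ QQ c p x),
          (if x ∈ ({2} : Finset ℕ) then Real.log (n : ℝ) else 0) ≤ 4 * Real.log n := by
        rw [← sum_filter, sum_const, nsmul_eq_mul]
        refine mul_le_mul_of_nonneg_right ?_ hl0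
        have h2 : (((Icc 1 X).filter (fun x : ℕ => ∀ p ∈ pz y, ¬ QQ c p x)).filter
            (fun x => x ∈ ({2} : Finset ℕ))).card ≤ 4 :=
          (card_le_card (fun x hx => (mem_filter.1 hx).2)).trans (by simp)
        exact_mod_cast h2
      have h2 : ∑ x ∈ (Icc 1 X).filter (fun x : ℕ => ∀ p ∈ pz y, ¬ QQ c p x),
          (if ¬ x.Prime then ArithmeticFunction.vonMangoldt x else 0) ≤
          2 * √(n : ℝ) * Real.log n := by
        have h3 := Chebyshev.psi_sub_theta_le (x := ((n : ℕ) : ℝ)) (by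
          have : 1 ≤ n := by omega
          exact_mod_cast this)
        rw [Chebyshev.psi_sub_theta_eq_sum_not_prime, Nat.floor_natCast] at h3
        refine le_trans ?_ h3
        rw [← sum_filter]
        refine sum_le_sum_of_subset_of_nonneg ?_ (fun _ _ _ => ArithmeticFunction.vonMangoldt_nonneg)
        intro x hx
        simp only [mem_filter, mem_Icc, mem_Ioc] at hx ⊢
        exact ⟨by omega, hx.2⟩
      linarith
  have h1 : n / (12 * C * Real.log n) ≤ (gy y X c).card * Real.log n := by
    have h2 : n / (6 * C * Real.log n) = n / (12 * C * Real.log n) + n / (12 * C * Real.log n) := by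
      have : C * Real.log n ≠ 0 := by positivity
      field_simp
      ring
    have h3 : n / (24 * C * Real.log n) ≤ n / (12 * C * Real.log n) := by
      apply div_le_div_of_nonneg_left hn0.le (by positivity)
      have : 0 ≤ C * Real.log n := by positivity
      linarith
    linarith
  unfold LL
  rw [div_le_iff₀ (by positivity)] at h1
  rw [one_div, inv_mul_le_iff₀ (by positivity), div_le_iff₀ (by positivity)]
  calc (n : ℝ) ≤ (gy y X c).card * Real.log n * (12 * C * Real.log n) := h1
    _ = _ := by ring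

open Classical in
/-- the difference is prime and the sum is rough -/
def S_ALLD : Prop := ∃ K0 : ℕ, ∃ δ : ℝ, 0 < δ ∧ ∃ n0 : ℕ, ∀ n : ℕ, n0 ≤ n → ∀ K : ℕ, K0 ≤ K →
  ∀ a ∈ Icc 1 n, δ * LL n ≤
    (((Icc 1 n).filter (fun b => a ≠ b ∧ OPr (Nat.dist a b) ∧ Rog K n (a + b))).card : ℝ)

open Classical in
theorem t_alld : S_ALLD := by
  obtain ⟨K, hK, δ, hδ, n0, h⟩ := gy_low
  refine ⟨K, δ, hδ, max n0 6, fun n hn K' hK' a ha => ?_⟩
  have hn0 := le_trans (le_max_left _ _) hn
  have hn6 := le_trans (le_max_right _ _) hn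
  obtain ⟨y, hy, hX⟩ := h n hn0
  rw [mem_Icc] at ha
  have big : ∀ p : ℕ, p.Prime → p ∉ pz y → n < p ^ K' := by
    intro p hp hpn
    have hpy : y < p := by
      by_contra hcon
      apply hpn
      unfold pz
      rw [mem_filter, mem_Icc]
      exact ⟨⟨hp.one_le, by omega⟩, hp⟩
    calc n < (y + 1) ^ K := hy
      _ ≤ p ^ K := Nat.pow_le_pow_left (by omega) K
      _ ≤ p ^ K' := Nat.pow_le_pow_right hp.pos hK'
  rcases Nat.lt_or_ge n (2 * a) with hcase | hcase
  · refine (hX (a - 1) (by omega) (by omega) (fun _ => 2 * a) ⟨a, rfl⟩).trans ?_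
    have hle : (gy y (a - 1) (fun _ => 2 * a)).card ≤
        ((Icc 1 n).filter (fun b => a ≠ b ∧ OPr (Nat.dist a b) ∧ Rog K' n (a + b))).card := by
      refine card_le_card_of_injOn (fun x => a - x) ?_ ?_
      · intro x hx
        have hx' : x ∈ gy y (a - 1) (fun _ => 2 * a) := hx
        unfold gy at hx'
        rw [mem_filter, mem_Icc] at hx'
        obtain ⟨⟨h1, h2⟩, h3, h4, h8⟩ := hx'
        change a - x ∈ (Icc 1 n).filter (fun b => a ≠ b ∧ OPr (Nat.dist a b) ∧ Rog K' n (a + b))
        rw [mem_filter, mem_Icc]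
        refine ⟨⟨by omega, by omega⟩, by omega, ?_, by omega, ?_⟩
        · have : Nat.dist a (a - x) = x := by
            unfold Nat.dist
            omega
          rw [this]
          exact ⟨h3, h3.odd_of_ne_two h4⟩
        · intro p hp hpd
          apply big p hp
          intro hpy
          apply h8 p hpy
          unfold QQ
          have hpd' : (p : ℤ) ∣ ((2 * a : ℕ) : ℤ) - (x : ℤ) := by
            have h10 : ((a + (a - x) : ℕ) : ℤ) = ((2 * a : ℕ) : ℤ) - (x : ℤ) := by omega
            rw [← h10]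
            exact_mod_cast hpd
          exact (Nat.modEq_iff_dvd).2 hpd'
      · intro x hx x' hx' h
        have h1 : x ∈ gy y (a - 1) (fun _ => 2 * a) := hx
        have h2 : x' ∈ gy y (a - 1) (fun _ => 2 * a) := hx'
        unfold gy at h1 h2
        rw [mem_filter, mem_Icc] at h1 h2
        have h3 : a - x = a - x' := h
        omega
    exact_mod_cast hle
  · -- the class of `-2 a`: represented by `2 a (p - 1)`
    refine (hX (n - a) (by omega) (by omega) (fun p => 2 * a * (p - 1)) ⟨a, by ring⟩).trans ?_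
    have hle : (gy y (n - a) (fun p => 2 * a * (p - 1))).card ≤
        ((Icc 1 n).filter (fun b => a ≠ b ∧ OPr (Nat.dist a b) ∧ Rog K' n (a + b))).card := by
      refine card_le_card_of_injOn (fun x => a + x) ?_ ?_
      · intro x hx
        have hx' : x ∈ gy y (n - a) (fun p => 2 * a * (p - 1)) := hx
        unfold gy at hx'
        rw [mem_filter, mem_Icc] at hx'
        obtain ⟨⟨h1, h2⟩, h3, h4, h8⟩ := hx'
        change a + x ∈ (Icc 1 n).filter (fun b => a ≠ b ∧ OPr (Nat.dist a b) ∧ Rog K' n (a + b))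
        rw [mem_filter, mem_Icc]
        refine ⟨⟨by omega, by omega⟩, by omega, ?_, by omega, ?_⟩
        · have : Nat.dist a (a + x) = x := by
            unfold Nat.dist
            omega
          rw [this]
          exact ⟨h3, h3.odd_of_ne_two h4⟩
        · intro p hp hpd
          apply big p hp
          intro hpy
          apply h8 p hpy
          unfold QQ
          have hpd' : (p : ℤ) ∣ ((2 * a * (p - 1) : ℕ) : ℤ) - (x : ℤ) := by
            have h11 : ((p - 1 : ℕ) : ℤ) = (p : ℤ) - 1 := by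
              have := hp.one_le
              omega
            have h10 : ((2 * a * (p - 1) : ℕ) : ℤ) - (x : ℤ) =
                (p : ℤ) * (2 * a) - ((a + (a + x) : ℕ) : ℤ) := by
              push_cast
              rw [h11]
              ring
            rw [h10]
            exact dvd_sub (dvd_mul_right _ _) (by exact_mod_cast hpd)
          exact (Nat.modEq_iff_dvd).2 hpd'
      · intro x hx x' hx' h
        have h3 : a + x = a + x' := h
        omega
    exact_mod_cast hle

end Pool.Agent.P8H86.GM
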