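import Pool.Agent.P8H49.GM.Stm
import Pool.Agent.H373R2.T7.FundC
import Pool.Agent.P8H86.EX.Mer

/-!
Project GM (helper49, mixed Goldbach graphs), package ALLV.
-/

set_option autoImplicit false

namespace Pool.Agent.P8H86.GM

open Finset Filter Topology
open Pool.Agent.H373R2.T7 (pz Vz rhoA PerA lam_fund)
open Pool.Agent.P8H49.GM
open Pool.Agent.R521.GG (LL)
open Pool.Agent.P8H14.EX (op)
open Pool.Agent.P8H86.EX (MM MM_eq op_ge)

lemma op_succ {y : ℕ} (hy : 2 ≤ y) : op (y + 1) = if (y + 1).Prime then insert (y + 1) (op y) else op y := by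
  ext p
  split_ifs with h
  · simp only [op, mem_filter, mem_Icc, mem_insert]
    constructor
    · rintro ⟨⟨h1, h2⟩, h3⟩
      rcases Nat.lt_or_ge p (y + 1) with h4 | h4
      · right
        exact ⟨⟨h1, by omega⟩, h3⟩
      · left
        omega
    · rintro (rfl | ⟨⟨h1, h2⟩, h3⟩)
      · exact ⟨⟨by omega, le_rfl⟩, h⟩
      · exact ⟨⟨h1, by omega⟩, h3⟩
  · simp only [op, mem_filter, mem_Icc]
    constructor
    · rintro ⟨⟨h1, h2⟩, h3⟩
      refine ⟨⟨h1, ?_⟩, h3⟩
      rcases Nat.lt_or_ge p (y + 1) with h4 | h4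
      · omega
      · have : p = y + 1 := by omega
        exact absurd (this ▸ h3) h
    · rintro ⟨⟨h1, h2⟩, h3⟩
      exact ⟨⟨h1, by omega⟩, h3⟩

lemma tele (y : ℕ) (hy : 2 ≤ y) :
    (y : ℝ) / (2 * ((y : ℝ) - 1)) ≤ ∏ p ∈ op y, (1 - 1 / ((p : ℝ) - 1) ^ 2) := by
  induction y, hy using Nat.le_induction with
  | base =>
    have : op 2 = ∅ := by
      ext p
      simp only [op, mem_filter, mem_Icc, notMem_empty, iff_false]
      omega
    rw [this, prod_empty]
    norm_num
  | succ y hy ih =>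
    have hy2 : (2 : ℝ) ≤ y := by exact_mod_cast hy
    have h1 : (y : ℝ) - 1 ≠ 0 := by linarith
    have h2 : (y : ℝ) ≠ 0 := by linarith
    rw [op_succ hy]
    split_ifs with h
    · have hn : y + 1 ∉ op y := by
        simp only [op, mem_filter, mem_Icc]
        omega
      rw [prod_insert hn]
      push_cast
      have h3 : 0 ≤ 1 - 1 / ((y : ℝ) + 1 - 1) ^ 2 := by
        rw [sub_nonneg, add_sub_cancel_right, div_le_one (by positivity)]
        nlinarith
      calc ((y : ℝ) + 1) / (2 * ((y : ℝ) + 1 - 1))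
          = (1 - 1 / ((y : ℝ) + 1 - 1) ^ 2) * ((y : ℝ) / (2 * ((y : ℝ) - 1))) := by
            rw [add_sub_cancel_right]
            field_simp
            ring
        _ ≤ _ := mul_le_mul_of_nonneg_left ih h3
    · refine le_trans ?_ ih
      push_cast
      rw [add_sub_cancel_right, div_le_div_iff₀ (by linarith) (by linarith)]
      nlinarith

lemma half_le (y : ℕ) (hy : 2 ≤ y) : (1 : ℝ) / 2 ≤ ∏ p ∈ op y, (1 - 1 / ((p : ℝ) - 1) ^ 2) := by
  refine le_trans ?_ (tele y hy)
  have hy2 : (2 : ℝ) ≤ y := by exact_mod_cast hy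
  rw [div_le_div_iff₀ (by norm_num) (by linarith)]
  linarith

lemma pz_eq {y : ℕ} (hy : 2 ≤ y) : pz y = insert 2 (op y) := by
  ext p
  simp only [pz, op, mem_filter, mem_Icc, mem_insert]
  constructor
  · rintro ⟨⟨-, h2⟩, h3⟩
    rcases Nat.lt_or_ge p 3 with h | h
    · left
      have := h3.two_le
      omega
    · right
      exact ⟨⟨h, h2⟩, h3⟩
  · rintro (rfl | ⟨⟨h1, h2⟩, h3⟩)
    · exact ⟨⟨by norm_num, hy⟩, Nat.prime_two⟩
    · exact ⟨⟨by omega, h2⟩, h3⟩

/-- lower bound of the product -/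
lemma prod_low {y : ℕ} (hy : 2 ≤ y) (ρ : ℕ → ℕ) (h2 : ρ 2 = 0) (h1 : ∀ p, p.Prime → ρ p ≤ 1) :
    (MM y)⁻¹ ≤ ∏ p ∈ pz y, (1 - (ρ p : ℝ) / (p - 1 : ℝ)) := by
  have hn : 2 ∉ op y := fun h => by
    have := op_ge h
    omega
  rw [pz_eq hy, prod_insert hn, h2]
  have e1 : (1 - ((0 : ℕ) : ℝ) / (((2 : ℕ) : ℝ) - 1)) = 1 := by norm_num
  rw [e1, one_mul]
  have e2 : ∏ p ∈ op y, (1 - 1 / ((p : ℝ) - 1)) ≤ ∏ p ∈ op y, (1 - (ρ p : ℝ) / (p - 1 : ℝ)) := by
    refine prod_le_prod (fun p hp => ?_) (fun p hp => ?_)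
    · have h3 : (3 : ℝ) ≤ p := by exact_mod_cast op_ge hp
      rw [sub_nonneg, div_le_one (by linarith)]
      linarith
    · have h3 : (3 : ℝ) ≤ p := by exact_mod_cast op_ge hp
      have h4 : (ρ p : ℝ) ≤ 1 := by exact_mod_cast h1 p (mem_filter.1 hp).2
      have h5 : (ρ p : ℝ) / (p - 1 : ℝ) ≤ 1 / (p - 1 : ℝ) :=
        div_le_div_of_nonneg_right h4 (by linarith)
      linarith
  refine le_trans ?_ e2
  have e3 : ∏ p ∈ op y, (1 - 1 / ((p : ℝ) - 1)) =
      (∏ p ∈ op y, (1 - 1 / ((p : ℝ) - 1) ^ 2)) * ∏ p ∈ op y, ((1 - (p : ℝ)⁻¹)⁻¹)⁻¹ := by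
    rw [← prod_mul_distrib]
    refine prod_congr rfl fun p hp => ?_
    have h3 : (3 : ℝ) ≤ p := by exact_mod_cast op_ge hp
    have h4 : (p : ℝ) - 1 ≠ 0 := by linarith
    have h5 : (p : ℝ) ≠ 0 := by linarith
    rw [inv_inv]
    field_simp
    ring
  rw [e3, MM_eq hy, mul_inv, ← prod_inv_distrib]
  refine mul_le_mul_of_nonneg_right ?_ ?_
  · have := half_le y hy
    norm_num at this ⊢
    exact this
  · refine prod_nonneg fun p hp => ?_
    have h3 : (3 : ℝ) ≤ p := by exact_mod_cast op_ge hp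
    rw [inv_inv, sub_nonneg]
    exact inv_le_one_of_one_le₀ (by linarith)

lemma MM_upper : ∃ C : ℝ, 0 < C ∧ ∃ y1 : ℕ, ∀ y : ℕ, y1 ≤ y → MM y ≤ C * Real.log y := by
  have hM : Tendsto (fun z : ℕ => MM z / Real.log z) atTop
      (𝓝 (Real.exp Real.eulerMascheroniConstant)) := Pool.Agent.H305R2.mertens_three
  have h1 := hM.eventually (gt_mem_nhds (show Real.exp Real.eulerMascheroniConstant <
    Real.exp Real.eulerMascheroniConstant + 1 by linarith))
  obtain ⟨y1, hy1⟩ := eventually_atTop.1 (h1.and (eventually_ge_atTop 2))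
  refine ⟨Real.exp Real.eulerMascheroniConstant + 1, by positivity, y1, fun y hy => ?_⟩
  obtain ⟨h2, h3⟩ := hy1 y hy
  have h4 : 0 < Real.log y := Real.log_pos (by exact_mod_cast h3)
  rw [div_lt_iff₀ h4] at h2
  exact h2.le

lemma MM_pos {y : ℕ} : 0 < MM y := by
  unfold MM
  refine prod_pos fun p hp => ?_
  have h1 : (2 : ℝ) ≤ p := by exact_mod_cast (mem_filter.1 hp).2.two_le
  have h2 : (p : ℝ)⁻¹ < 1 := inv_lt_one_of_one_lt₀ (by linarith)
  have h3 : 0 < 1 - (p : ℝ)⁻¹ := by linarith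
  positivity

/-- the condition: `p` divides `2 a - r` -/
def Q (a p r : ℕ) : Prop := r % p = (2 * a) % p

lemma Q_per (a : ℕ) : PerA (Q a) 1 := by
  classical
  constructor
  · intro p n
    unfold Q
    rw [Nat.mod_mod]
  · intro p hp
    unfold rhoA
    rw [card_le_one]
    intro r hr s hs
    rw [mem_filter, mem_range] at hr hs
    have h1 := hr.2.2
    have h2 := hs.2.2
    unfold Q at h1 h2
    rw [Nat.mod_eq_of_lt hr.1] at h1
    rw [Nat.mod_eq_of_lt hs.1] at h2
    rw [h1, h2]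

lemma Q_two (a : ℕ) : rhoA (Q a) 2 = 0 := by
  classical
  unfold rhoA
  rw [card_eq_zero, filter_eq_empty_iff]
  intro r hr h
  have h1 := h.2
  unfold Q at h1
  have h2 := h.1
  omega

/-- the analytic inequalities -/
lemma asym (C : ℝ) (hC : 0 < C) : ∀ᶠ n : ℕ in atTop,
    4 * (n : ℝ) / Real.log (2 * n) ^ 3 ≤ n / (4 * C * Real.log n) ∧
    2 * √(2 * (n : ℝ)) * Real.log (2 * n) + 4 * Real.log (2 * n) ≤ n / (4 * C * Real.log n) ∧
    Real.log (2 * n) ≤ 2 * Real.log n ∧ 1 ≤ Real.log n := by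
  have hlog : Tendsto (fun n : ℕ => Real.log n) atTop atTop :=
    Real.tendsto_log_atTop.comp tendsto_natCast_atTop_atTop
  have e1 := hlog.eventually_ge_atTop (16 * C + 1)
  have e2 : ∀ᶠ n : ℕ in atTop, ‖Real.log n ^ 4‖ ≤ (1 / (64 * C)) ^ 2 * ‖(n : ℝ)‖ :=
    ((Real.isLittleO_pow_log_id_atTop (n := 4)).def (c := (1 / (64 * C)) ^ 2) (by positivity)).natCast_atTop
  filter_upwards [e1, e2, eventually_ge_atTop 2] with n h1 h2 h3
  have hn2 : (2 : ℝ) ≤ n := by exact_mod_cast h3
  have hn0 : (0 : ℝ) < n := by linarith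
  obtain ⟨L, hL⟩ : ∃ L, L = Real.log n := ⟨_, rfl⟩
  rw [← hL] at h1 h2 ⊢
  have hL1 : 1 ≤ L := by nlinarith
  have hlog2 : Real.log (2 * n) = Real.log 2 + L := by
    rw [Real.log_mul (by norm_num) hn0.ne', hL]
  have hl2 : 0 < Real.log 2 := Real.log_pos (by norm_num)
  have hl2' : Real.log 2 ≤ L := by
    rw [hL]
    exact Real.log_le_log (by norm_num) hn2
  have hl3 : L ≤ Real.log (2 * n) := by linarith
  have hl4 : Real.log (2 * n) ≤ 2 * L := by linarith
  refine ⟨?_, ?_, hl4, hL1⟩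
  · have h5 : L ^ 3 ≤ Real.log (2 * n) ^ 3 := pow_le_pow_left₀ (by linarith) hl3 3
    calc 4 * (n : ℝ) / Real.log (2 * n) ^ 3 ≤ 4 * n / L ^ 3 :=
          div_le_div_of_nonneg_left (by positivity) (by positivity) h5
      _ ≤ n / (4 * C * L) := by
          rw [div_le_div_iff₀ (by positivity) (by positivity)]
          have h6 : 16 * C ≤ L ^ 2 := by nlinarith
          have h7 : 0 ≤ n * L := by positivity
          have h8 := mul_le_mul_of_nonneg_left h6 h7
          calc 4 * (n : ℝ) * (4 * C * L) = n * L * (16 * C) := by ring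
            _ ≤ n * L * L ^ 2 := h8
            _ = n * L ^ 3 := by ring
  · have hs : √(2 * (n : ℝ)) ≤ 2 * √n := by
      rw [Real.sqrt_mul (by norm_num)]
      have h5 : √(2 : ℝ) ≤ 2 := by
        rw [Real.sqrt_le_left (by norm_num)]
        norm_num
      exact mul_le_mul_of_nonneg_right h5 (Real.sqrt_nonneg _)
    have hs1 : 1 ≤ √(n : ℝ) := by
      rw [Real.one_le_sqrt]
      linarith
    have h6 : L ^ 2 ≤ 1 / (64 * C) * √n := by
      rw [Real.norm_of_nonneg (by positivity), Real.norm_of_nonneg (by positivity)] at h2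
      have h7 : (L ^ 2) ^ 2 ≤ (1 / (64 * C) * √n) ^ 2 := by
        rw [mul_pow, Real.sq_sqrt hn0.le]
        calc (L ^ 2) ^ 2 = L ^ 4 := by ring
          _ ≤ _ := h2
      exact (pow_le_pow_iff_left₀ (by positivity) (by positivity) two_ne_zero).1 h7
    have h8 : 2 * √(2 * (n : ℝ)) * Real.log (2 * n) + 4 * Real.log (2 * n) ≤ 16 * √n * L := by
      have h9 : 2 * √(2 * (n : ℝ)) + 4 ≤ 8 * √n := by linarith
      have h10 : 0 ≤ 2 * √(2 * (n : ℝ)) + 4 := by positivity
      calc 2 * √(2 * (n : ℝ)) * Real.log (2 * n) + 4 * Real.log (2 * n)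
          = (2 * √(2 * (n : ℝ)) + 4) * Real.log (2 * n) := by ring
        _ ≤ (8 * √n) * (2 * L) := mul_le_mul h9 hl4 (by linarith) (by positivity)
        _ = _ := by ring
    refine h8.trans ?_
    rw [le_div_iff₀ (by positivity)]
    have hsq : √(n : ℝ) * √n = n := Real.mul_self_sqrt hn0.le
    calc 16 * √(n : ℝ) * L * (4 * C * L) = 64 * C * √n * L ^ 2 := by ring
      _ ≤ 64 * C * √n * (1 / (64 * C) * √n) := mul_le_mul_of_nonneg_left h6 (by positivity)
      _ = √(n : ℝ) * √n := by field_simp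
      _ = n := hsq

open Classical in
/-- the good `x` -/
noncomputable def gx (y n a : ℕ) : Finset ℕ :=
  (Ioc a (a + n)).filter (fun x => x.Prime ∧ x ≠ 2 ∧ x ≠ 2 * a ∧ x ≠ 2 * a + 1 ∧ x + 1 ≠ 2 * a ∧
    ∀ p ∈ pz y, ¬ Q a p x)

open Classical in
/-- the stronger form: the sum is prime and the difference is rough -/
def S_ALLV2 : Prop := ∃ K0 : ℕ, ∃ δ : ℝ, 0 < δ ∧ ∃ n0 : ℕ, ∀ n : ℕ, n0 ≤ n → ∀ K : ℕ, K0 ≤ K →
  ∀ a ∈ Icc 1 n, δ * LL n ≤
    (((Icc 1 n).filter (fun b => a ≠ b ∧ OPr (a + b) ∧ Rog K n (Nat.dist a b))).card : ℝ)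

open Classical in
theorem t_allv2 : S_ALLV2 := by
  obtain ⟨K, hK, hfund⟩ := lam_fund 1 le_rfl (1 / 12) (by norm_num)
  obtain ⟨x0, hx0⟩ := hfund 3
  obtain ⟨C, hC, y1, hy1⟩ := MM_upper
  obtain ⟨n1, hn1⟩ := eventually_atTop.1 (asym C hC)
  obtain ⟨y2, hy2⟩ : ∃ y2, y2 = max x0 (max y1 2) := ⟨_, rfl⟩
  refine ⟨K, 1 / (8 * C), by positivity, max n1 (y2 ^ K), fun n hn K' hK' a ha => ?_⟩
  have hna := le_trans (le_max_left _ _) hn
  have hnb := le_trans (le_max_right _ _) hn
  obtain ⟨A1, A2, A3, A4⟩ := hn1 n hna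
  rw [mem_Icc] at ha
  -- the parameter y
  obtain ⟨y, hy⟩ : ∃ y, y = Nat.findGreatest (fun y => y ^ K ≤ n) n := ⟨_, rfl⟩
  have hy2n : y2 ≤ n := (Nat.le_self_pow (by omega) y2).trans hnb
  have hyy : y2 ≤ y := by
    rw [hy]
    exact Nat.le_findGreatest hy2n hnb
  have hyK : y ^ K ≤ n := by
    rw [hy]
    exact Nat.findGreatest_spec (P := fun y => y ^ K ≤ n) hy2n hnb
  have hyK' : n < (y + 1) ^ K := by
    by_contra hcon
    push Not at hcon
    have h1 : y + 1 ≤ n := (Nat.le_self_pow (by omega) (y + 1)).trans hcon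
    have h2 := Nat.le_findGreatest (P := fun y => y ^ K ≤ n) h1 hcon
    rw [← hy] at h2
    omega
  have hyx0 : x0 ≤ y := by rw [hy2] at hyy; exact le_trans (le_max_left _ _) hyy
  have hyy1 : y1 ≤ y := by
    rw [hy2] at hyy
    exact le_trans (le_trans (le_max_left _ _) (le_max_right _ _)) hyy
  have hyt : 2 ≤ y := by
    rw [hy2] at hyy
    exact le_trans (le_trans (le_max_right _ _) (le_max_right _ _)) hyy
  have hyn : y ≤ n := (Nat.le_self_pow (by omega) y).trans hyK
  -- the main term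
  obtain ⟨M, hM⟩ : ∃ M : ℝ, M = ∏ p ∈ pz y, (1 - (rhoA (Q a) p : ℝ) / (p - 1 : ℝ)) := ⟨_, rfl⟩
  have hML : 1 / (C * Real.log n) ≤ M := by
    have h1 := prod_low hyt (rhoA (Q a)) (Q_two a) (Q_per a).few
    rw [← hM] at h1
    refine le_trans ?_ h1
    have h2 := hy1 y hyy1
    have h3 : Real.log y ≤ Real.log n :=
      Real.log_le_log (by exact_mod_cast (by omega : 0 < y)) (by exact_mod_cast hyn)
    rw [one_div]
    refine inv_anti₀ MM_pos (h2.trans (mul_le_mul_of_nonneg_left h3 hC.le))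
  have hn0 : (0 : ℝ) < n := by
    have : 1 ≤ n := by omega
    exact_mod_cast this
  have hM0 : 0 < M := lt_of_lt_of_le (by positivity) hML
  have hl0 : 0 ≤ Real.log (2 * n) := by
    refine Real.log_nonneg ?_
    have : 1 ≤ n := by omega
    have h1 : (1 : ℝ) ≤ n := by exact_mod_cast this
    linarith
  have hxy : y ^ K ≤ 2 * n := by omega
  have F1 := hx0 (2 * n) y hyx0 hxy (Q a) (Q_per a) a (by omega)
  have F2 := hx0 (2 * n) y hyx0 hxy (Q a) (Q_per a) (a + n) (by omega)
  rw [← hM] at F1 F2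
  set S1 := ∑ x ∈ (Icc 1 a).filter (fun x : ℕ => ∀ p ∈ pz y, ¬ Q a p x),
    ArithmeticFunction.vonMangoldt x with hS1
  set S2 := ∑ x ∈ (Icc 1 (a + n)).filter (fun x : ℕ => ∀ p ∈ pz y, ¬ Q a p x),
    ArithmeticFunction.vonMangoldt x with hS2
  have hdiff : S2 - S1 = ∑ x ∈ (Ioc a (a + n)).filter (fun x : ℕ => ∀ p ∈ pz y, ¬ Q a p x),
      ArithmeticFunction.vonMangoldt x := by
    rw [hS2, hS1, sum_filter, sum_filter, sum_filter, sub_eq_iff_eq_add]
    have : Icc 1 (a + n) = Icc 1 a ∪ Ioc a (a + n) := by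
      ext x
      simp only [mem_union, mem_Icc, mem_Ioc]
      omega
    rw [this, sum_union, add_comm]
    rw [disjoint_left]
    intro x hx hx2
    rw [mem_Icc] at hx
    rw [mem_Ioc] at hx2
    omega
  have hlow : n / (2 * C * Real.log n) ≤ S2 - S1 := by
    rw [abs_le] at F1 F2
    push_cast at F1 F2
    have ha2 : (a : ℝ) ≤ n := by exact_mod_cast ha.2
    have h1 : 2 * (n : ℝ) / Real.log (2 * n) ^ 3 ≤ n / (8 * C * Real.log n) := by
      have : n / (8 * C * Real.log n) = (n / (4 * C * Real.log n)) / 2 := by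
        rw [div_div]
        congr 1
        ring
      rw [this]
      have h2 : 2 * (n : ℝ) / Real.log (2 * n) ^ 3 = (4 * (n : ℝ) / Real.log (2 * n) ^ 3) / 2 := by
        ring
      rw [h2]
      linarith
    have h3 : (n : ℝ) / (C * Real.log n) ≤ n * M := by
      calc (n : ℝ) / (C * Real.log n) = n * (1 / (C * Real.log n)) := by ring
        _ ≤ n * M := mul_le_mul_of_nonneg_left hML hn0.le
    have h4 : (a : ℝ) * M ≤ n * M := mul_le_mul_of_nonneg_right ha2 hM0.le
    have h5 : (n : ℝ) / (2 * C * Real.log n) = (1 / 2) * (n / (C * Real.log n)) := by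
      have : C * Real.log n ≠ 0 := by positivity
      field_simp
    have h6 : (n : ℝ) / (8 * C * Real.log n) = (1 / 8) * (n / (C * Real.log n)) := by
      have : C * Real.log n ≠ 0 := by positivity
      field_simp
    rw [h5]
    rw [h6] at h1
    have h7 := F1.2
    have h8 := F2.1
    nlinarith
  -- from Λ to primes
  have hup : S2 - S1 ≤ (gx y n a).card * Real.log (2 * n) +
      (2 * √(2 * (n : ℝ)) * Real.log (2 * n) + 4 * Real.log (2 * n)) := by
    rw [hdiff]
    have hsplit : ∀ x ∈ (Ioc a (a + n)).filter (fun x : ℕ => ∀ p ∈ pz y, ¬ Q a p x),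
        ArithmeticFunction.vonMangoldt x ≤ (if x ∈ gx y n a then Real.log (2 * n) else 0) +
          ((if x ∈ ({2, 2 * a, 2 * a + 1, 2 * a - 1} : Finset ℕ) then Real.log (2 * n) else 0) +
          (if ¬ x.Prime then ArithmeticFunction.vonMangoldt x else 0)) := by
      intro x hx
      rw [mem_filter, mem_Ioc] at hx
      by_cases hp : x.Prime
      · rw [if_neg (not_not.2 hp), add_zero]
        have h1 : ArithmeticFunction.vonMangoldt x ≤ Real.log (2 * n) := by
          rw [ArithmeticFunction.vonMangoldt_apply_prime hp]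
          refine Real.log_le_log (by exact_mod_cast hp.pos) ?_
          have : x ≤ 2 * n := by omega
          exact_mod_cast this
        by_cases hg : x ∈ gx y n a
        · rw [if_pos hg]
          split_ifs <;> linarith
        · have h2 : x ∈ ({2, 2 * a, 2 * a + 1, 2 * a - 1} : Finset ℕ) := by
            by_contra hcon
            apply hg
            simp only [mem_insert, mem_singleton, not_or] at hcon
            unfold gx
            rw [mem_filter, mem_Ioc]
            refine ⟨hx.1, hp, hcon.1, hcon.2.1, hcon.2.2.1, ?_, hx.2⟩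
            have := hcon.2.2.2
            omega
          rw [if_neg hg, if_pos h2, zero_add]
          exact h1
      · rw [if_pos hp]
        have h1 : 0 ≤ (if x ∈ gx y n a then Real.log (2 * (n : ℝ)) else 0) := by
          split_ifs <;> linarith
        have h2 : 0 ≤ (if x ∈ ({2, 2 * a, 2 * a + 1, 2 * a - 1} : Finset ℕ) then
            Real.log (2 * (n : ℝ)) else 0) := by
          split_ifs <;> linarith
        linarith
    refine (sum_le_sum hsplit).trans ?_
    rw [sum_add_distrib, sum_add_distrib]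
    refine add_le_add ?_ ?_
    · rw [← sum_filter, sum_const, nsmul_eq_mul]
      refine mul_le_mul_of_nonneg_right ?_ hl0
      exact_mod_cast card_le_card (fun x hx => (mem_filter.1 hx).2)
    · have h1 : ∑ x ∈ (Ioc a (a + n)).filter (fun x : ℕ => ∀ p ∈ pz y, ¬ Q a p x),
          (if x ∈ ({2, 2 * a, 2 * a + 1, 2 * a - 1} : Finset ℕ) then Real.log (2 * (n : ℝ)) else 0) ≤
          4 * Real.log (2 * n) := by
        rw [← sum_filter, sum_const, nsmul_eq_mul]
        refine mul_le_mul_of_nonneg_right ?_ hl0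
        have h2 : (((Ioc a (a + n)).filter (fun x : ℕ => ∀ p ∈ pz y, ¬ Q a p x)).filter
            (fun x => x ∈ ({2, 2 * a, 2 * a + 1, 2 * a - 1} : Finset ℕ))).card ≤ 4 :=
          (card_le_card (fun x hx => (mem_filter.1 hx).2)).trans card_le_four
        exact_mod_cast h2
      have h2 : ∑ x ∈ (Ioc a (a + n)).filter (fun x : ℕ => ∀ p ∈ pz y, ¬ Q a p x),
          (if ¬ x.Prime then ArithmeticFunction.vonMangoldt x else 0) ≤
          2 * √(2 * (n : ℝ)) * Real.log (2 * n) := by
        have h3 := Chebyshev.psi_sub_theta_le (x := ((2 * n : ℕ) : ℝ)) (by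
          have : 1 ≤ 2 * n := by omega
          exact_mod_cast this)
        rw [Chebyshev.psi_sub_theta_eq_sum_not_prime, Nat.floor_natCast] at h3
        push_cast at h3
        refine le_trans ?_ h3
        rw [← sum_filter]
        refine sum_le_sum_of_subset_of_nonneg ?_ (fun _ _ _ => ArithmeticFunction.vonMangoldt_nonneg)
        intro x hx
        simp only [mem_filter, mem_Ioc] at hx ⊢
        exact ⟨by omega, hx.2⟩
      linarith
  -- the number of the good x
  have hcard : 1 / (8 * C) * LL n ≤ ((gx y n a).card : ℝ) := by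
    have h1 : n / (4 * C * Real.log n) ≤ (gx y n a).card * Real.log (2 * n) := by
      have h2 : n / (2 * C * Real.log n) = n / (4 * C * Real.log n) + n / (4 * C * Real.log n) := by
        have : C * Real.log n ≠ 0 := by positivity
        field_simp
        ring
      linarith
    have h3 : n / (4 * C * Real.log n) ≤ (gx y n a).card * (2 * Real.log n) :=
      h1.trans (mul_le_mul_of_nonneg_left A3 (by positivity))
    unfold LL
    rw [div_le_iff₀ (by positivity)] at h3
    rw [one_div, inv_mul_le_iff₀ (by positivity), div_le_iff₀ (by positivity)]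
    calc (n : ℝ) ≤ (gx y n a).card * (2 * Real.log n) * (4 * C * Real.log n) := h3
      _ = _ := by ring
  refine hcard.trans ?_
  have hle : (gx y n a).card ≤
      ((Icc 1 n).filter (fun b => a ≠ b ∧ OPr (a + b) ∧ Rog K' n (Nat.dist a b))).card := by
    refine card_le_card_of_injOn (fun x => x - a) ?_ ?_
    · intro x hx
      have hx' : x ∈ gx y n a := hx
      unfold gx at hx'
      rw [mem_filter, mem_Ioc] at hx'
      obtain ⟨⟨h1, h2⟩, h3, h4, h5, h6, h7, h8⟩ := hx'
      change x - a ∈ (Icc 1 n).filter (fun b => a ≠ b ∧ OPr (a + b) ∧ Rog K' n (Nat.dist a b))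
      rw [mem_filter, mem_Icc]
      refine ⟨⟨by omega, by omega⟩, by omega, ?_, ?_, ?_⟩
      · have : a + (x - a) = x := by omega
        rw [this]
        exact ⟨h3, h3.odd_of_ne_two h4⟩
      · unfold Nat.dist
        omega
      · intro p hp hpd
        have hpn : p ∉ pz y := by
          intro hpy
          apply h8 p hpy
          unfold Q
          have hpd' : (p : ℤ) ∣ (2 * a : ℕ) - (x : ℤ) := by
            rcases Nat.lt_or_ge x (2 * a) with h9 | h9
            · have : Nat.dist a (x - a) = 2 * a - x := by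
                unfold Nat.dist
                omega
              rw [this] at hpd
              have h10 : ((2 * a - x : ℕ) : ℤ) = (2 * a : ℕ) - (x : ℤ) := by omega
              rw [← h10]
              exact_mod_cast hpd
            · have : Nat.dist a (x - a) = x - 2 * a := by
                unfold Nat.dist
                omega
              rw [this] at hpd
              have h10 : ((x - 2 * a : ℕ) : ℤ) = -((2 * a : ℕ) - (x : ℤ)) := by omega
              have h11 : (p : ℤ) ∣ ((x - 2 * a : ℕ) : ℤ) := by exact_mod_cast hpd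
              rw [h10, dvd_neg] at h11
              exact h11
          exact (Nat.modEq_iff_dvd).2 hpd'
        have hpy : y < p := by
          by_contra hcon
          apply hpn
          unfold pz
          rw [mem_filter, mem_Icc]
          exact ⟨⟨hp.one_le, by omega⟩, hp⟩
        calc n < (y + 1) ^ K := hyK'
          _ ≤ p ^ K := Nat.pow_le_pow_left (by omega) K
          _ ≤ p ^ K' := Nat.pow_le_pow_right hp.pos hK'
    · intro x hx x' hx' h
      have h1 : x ∈ gx y n a := hx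
      have h2 : x' ∈ gx y n a := hx'
      unfold gx at h1 h2
      rw [mem_filter, mem_Ioc] at h1 h2
      have h3 : x - a = x' - a := h
      omega
  exact_mod_cast hle

open Classical in
theorem t_allv : S_ALLV := by
  obtain ⟨K0, δ, hδ, n0, h⟩ := t_allv2
  refine ⟨K0, δ, hδ, n0, fun n hn K hK a ha => (h n hn K hK a ha).trans ?_⟩
  exact_mod_cast card_le_card (fun b hb => by
    rw [mem_filter] at hb ⊢
    exact ⟨hb.1, hb.2.1, Or.inl ⟨hb.2.2.1, Or.inr hb.2.2.2⟩⟩)

end Pool.Agent.P8H86.GM
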