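import Pool.Agent.P8H49.GM.Stm

/-!
Project GM (helper49, mixed Goldbach graphs), package BETA.
-/

set_option autoImplicit false

namespace Pool.Agent.P8H86.GM

open Finset
open Pool.Agent.H373R2.T7 (pz)
open Pool.Agent.P8H49.GM

/-- the local choice. -/
lemma local_beta (a c p : ℕ) (h : SC a c) (hp : p.Prime) : ∃ b : ℕ, b < p ∧
    ¬ (p : ℤ) ∣ (a : ℤ) + b ∧ ¬ (p : ℤ) ∣ (a : ℤ) - b ∧ ¬ (p : ℤ) ∣ (c : ℤ) + b ∧
    ¬ (p : ℤ) ∣ (c : ℤ) - b := by
  obtain ⟨h2, h3⟩ := h
  rcases Nat.lt_or_ge p 5 with h5 | h5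
  · have hp2 := hp.two_le
    have hp4 : p ≠ 4 := by rintro rfl; revert hp; decide
    have hcase : p = 2 ∨ p = 3 := by omega
    rcases hcase with rfl | rfl
    · refine ⟨(a + 1) % 2, Nat.mod_lt _ (by norm_num), ?_⟩
      push_cast
      omega
    · by_cases h4 : 3 ∣ a
      · refine ⟨1, by norm_num, ?_⟩
        have h6 := h3.1 h4
        omega
      · refine ⟨0, by norm_num, ?_⟩
        have h6 : ¬ 3 ∣ c := fun h => h4 (h3.2 h)
        omega
  · -- at most four bad residues
    have : NeZero p := ⟨hp.ne_zero⟩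
    let T : Finset (ZMod p) := {-(a : ZMod p), (a : ZMod p), -(c : ZMod p), (c : ZMod p)}
    have hT : T.card < (univ : Finset (ZMod p)).card := by
      rw [card_univ, ZMod.card]
      have : T.card ≤ 4 := Finset.card_le_four
      omega
    obtain ⟨x, -, hx⟩ := exists_mem_notMem_of_card_lt_card hT
    refine ⟨x.val, ZMod.val_lt x, ?_⟩
    have hxv : ((x.val : ℕ) : ZMod p) = x := ZMod.natCast_zmod_val x
    simp only [T, mem_insert, mem_singleton, not_or] at hx
    obtain ⟨x1, x2, x3, x4⟩ := hx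
    refine ⟨?_, ?_, ?_, ?_⟩
    · intro hd
      apply x1
      have := (ZMod.intCast_zmod_eq_zero_iff_dvd _ p).2 hd
      push_cast at this
      rw [hxv] at this
      exact eq_neg_of_add_eq_zero_right this
    · intro hd
      apply x2
      have := (ZMod.intCast_zmod_eq_zero_iff_dvd _ p).2 hd
      push_cast at this
      rw [hxv] at this
      exact (sub_eq_zero.1 this).symm
    · intro hd
      apply x3
      have := (ZMod.intCast_zmod_eq_zero_iff_dvd _ p).2 hd
      push_cast at this
      rw [hxv] at this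
      exact eq_neg_of_add_eq_zero_right this
    · intro hd
      apply x4
      have := (ZMod.intCast_zmod_eq_zero_iff_dvd _ p).2 hd
      push_cast at this
      rw [hxv] at this
      exact (sub_eq_zero.1 this).symm

theorem t_beta : S_BETA := by
  intro w a c h
  choose! b hb using fun p (hp : p.Prime) => local_beta a c p h hp
  have hpr : ∀ p ∈ pz w, p.Prime := fun p hp => (mem_filter.1 hp).2
  have hco : Set.Pairwise (pz w : Set ℕ) (Function.onFun Nat.Coprime fun i => i) := by
    intro p hp q hq hpq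
    exact (Nat.coprime_primes (hpr p hp) (hpr q hq)).2 hpq
  have hnz : ∀ p ∈ pz w, p ≠ 0 := fun p hp => (hpr p hp).ne_zero
  let x := Nat.chineseRemainderOfFinset b (fun i => i) (pz w) hnz hco
  refine ⟨x.1, ?_, ?_⟩
  · exact Nat.chineseRemainderOfFinset_lt_prod b (fun i => i) hnz hco
  · intro p hp
    have hx : x.1 ≡ b p [MOD p] := x.2 p hp
    have hd : (p : ℤ) ∣ (b p : ℤ) - x.1 := (Nat.modEq_iff_dvd).1 hx
    obtain ⟨h0, h1, h2, h3, h4⟩ := hb p (hpr p hp)
    refine ⟨fun h => h1 ?_, fun h => h2 ?_, fun h => h3 ?_, fun h => h4 ?_⟩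
    · have := dvd_add h hd
      rwa [show (a : ℤ) + x.1 + ((b p : ℤ) - x.1) = a + b p by ring] at this
    · have := dvd_sub h hd
      rwa [show (a : ℤ) - x.1 - ((b p : ℤ) - x.1) = a - b p by ring] at this
    · have := dvd_add h hd
      rwa [show (c : ℤ) + x.1 + ((b p : ℤ) - x.1) = c + b p by ring] at this
    · have := dvd_sub h hd
      rwa [show (c : ℤ) - x.1 - ((b p : ℤ) - x.1) = c - b p by ring] at this

end Pool.Agent.P8H86.GM
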